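import Mathlib

/-!
# MP_59918e_co: equistable graphs need not be weakly CIS

Let `H` be the circulant graph on `ZMod 11` with connection set `1, -1, 4, -4` (4-regular and
triangle-free, with 22 edges) and let `G` be the complement of the line graph of `H`. The stable
sets of `G` are the sets of pairwise intersecting edges of `H`, so the maximal ones are the eleven
stars of `H`. The cliques of `G` are the matchings of `H`.

* `G` is strongly equistable and equistable: there is an integer vector `x` in the kernel of the
  incidence matrix of `H` such that no set `T` of at most four edges has `x (T) = 0`, except the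
  empty set and the stars. The weights `1 / 4` and `1 / 4 + x / 16000` show strong equistability,
  the latter alone shows equistability.
* `G` is not weakly CIS: a non-edge covering family of maximal stable sets must contain all stars,
  because two edges with the common end `a` lie together in no other star. So each clique of the
  other family is a perfect matching of `H`, which is impossible, since `H` has 11 vertices.
-/

set_option autoImplicit false

namespace Pool.Agent.Results.MP_59918e_co.StronglyEquistableNotWeaklyCIS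

open Finset

/-! ## Definitions -/

/-- `S` is an inclusion-maximal stable set of `G`. -/
def MaxStable {V : Type} (G : SimpleGraph V) (S : Finset V) : Prop :=
  Maximal (fun s : Finset V => G.IsIndepSet (s : Set V)) S

/-- `K` is an inclusion-maximal clique of `G`. -/
def MaxClique {V : Type} (G : SimpleGraph V) (K : Finset V) : Prop :=
  Maximal (fun s : Finset V => G.IsClique (s : Set V)) K

/-- `G` is equistable: for some nonnegative weights the maximal stable sets are exactly the sets of
weight `1`. -/
def Equistable {V : Type} (G : SimpleGraph V) : Prop :=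
  ∃ φ : V → ℝ, (∀ v, 0 ≤ φ v) ∧ ∀ S : Finset V, MaxStable G S ↔ ∑ v ∈ S, φ v = 1

/-- `G` is strongly equistable: for every nonempty set `T` of vertices that is not a maximal stable
set and for every real `γ ≤ 1` there are positive weights for which every maximal stable set has
weight `1` and the weight of `T` is not `γ`. -/
def StronglyEquistable {V : Type} (G : SimpleGraph V) : Prop :=
  ∀ T : Finset V, T.Nonempty → ¬ MaxStable G T → ∀ γ : ℝ, γ ≤ 1 →
    ∃ φ : V → ℝ, (∀ v, 0 < φ v) ∧ (∀ S : Finset V, MaxStable G S → ∑ v ∈ S, φ v = 1) ∧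
      ∑ v ∈ T, φ v ≠ γ

/-- `G` is weakly CIS: there are an edge covering family `C` of maximal cliques and a non-edge
covering family `D` of maximal stable sets such that every member of `C` meets every member of
`D`. -/
def WeaklyCIS {V : Type} (G : SimpleGraph V) : Prop :=
  ∃ C D : Set (Finset V), (∀ K ∈ C, MaxClique G K) ∧ (∀ S ∈ D, MaxStable G S) ∧
    (∀ u v, G.Adj u v → ∃ K ∈ C, u ∈ K ∧ v ∈ K) ∧
    (∀ u v, u ≠ v → ¬ G.Adj u v → ∃ S ∈ D, u ∈ S ∧ v ∈ S) ∧
    ∀ K ∈ C, ∀ S ∈ D, ∃ v, v ∈ K ∧ v ∈ S

/-! ## The graph -/

/-- first end of the edge `i` of `H` -/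
def p (i : ℕ) : ℕ := if i < 11 then i else i - 11

/-- second end of the edge `i` of `H` -/
def q (i : ℕ) : ℕ := if i < 11 then (i + 1) % 11 else (i - 11 + 4) % 11

/-- the complement of the line graph of `H` -/
def graph : SimpleGraph (Fin 22) where
  Adj i j := p i ≠ p j ∧ p i ≠ q j ∧ q i ≠ p j ∧ q i ≠ q j
  symm := ⟨fun _ _ h => ⟨h.1.symm, h.2.2.1.symm, h.2.1.symm, h.2.2.2.symm⟩⟩
  loopless := ⟨fun _ h => h.1 rfl⟩

instance : DecidableRel graph.Adj := fun i j =>
  inferInstanceAs (Decidable (p i ≠ p j ∧ p i ≠ q j ∧ q i ≠ p j ∧ q i ≠ q j))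

/-- the edge `i` has the end `a` -/
def inc (i : Fin 22) (a : Fin 11) : Bool := (p i == (a : ℕ)) || (q i == (a : ℕ))

/-- the star of the vertex `a` of `H` -/
def star (a : Fin 11) : Finset (Fin 22) := univ.filter (fun i => inc i a = true)

theorem common : ∀ i j : Fin 22, ¬ graph.Adj i j → ∃ a, inc i a = true ∧ inc j a = true := by
  decide +kernel

theorem triangle_free : ∀ i j : Fin 22, i ≠ j → ∀ a, inc i a = true → inc j a = true →
    ∀ k : Fin 22, ¬ graph.Adj i k → ¬ graph.Adj j k → inc k a = true := by
  decide +kernel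

theorem not_adj_of_common : ∀ i j : Fin 22, ∀ a, inc i a = true → inc j a = true →
    ¬ graph.Adj i j := by
  decide +kernel

theorem star_sub : ∀ a b : Fin 11, star a ⊆ star b → a = b := by
  decide +kernel

theorem star_stable (a : Fin 11) : graph.IsIndepSet (star a : Set (Fin 22)) := by
  intro i hi j hj _
  simp only [star, coe_filter, mem_univ, true_and] at hi hj
  exact not_adj_of_common i j a hi hj

theorem stable_sub {S : Finset (Fin 22)} (hS : graph.IsIndepSet (S : Set (Fin 22))) :
    ∃ a, S ⊆ star a := by
  rcases S.eq_empty_or_nonempty with rfl | ⟨i, hi⟩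
  · exact ⟨0, empty_subset _⟩
  by_cases h : ∃ j ∈ S, i ≠ j
  · obtain ⟨j, hj, hij⟩ := h
    obtain ⟨a, ha1, ha2⟩ := common i j (hS hi hj hij)
    refine ⟨a, fun k hk => ?_⟩
    simp only [star, mem_filter, mem_univ, true_and]
    by_cases hik : i = k
    · rw [← hik]; exact ha1
    by_cases hjk : j = k
    · rw [← hjk]; exact ha2
    exact triangle_free i j hij a ha1 ha2 k (hS hi hk hik) (hS hj hk hjk)
  · push Not at h
    obtain ⟨a, ha, _⟩ := common i i (graph.loopless.irrefl i)
    refine ⟨a, fun k hk => ?_⟩
    simp only [star, mem_filter, mem_univ, true_and]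
    rw [← h k hk]
    exact ha

theorem maxStable_iff (S : Finset (Fin 22)) : MaxStable graph S ↔ ∃ a, S = star a := by
  constructor
  · intro h
    obtain ⟨a, ha⟩ := stable_sub h.1
    exact ⟨a, le_antisymm ha (h.2 (star_stable a) ha)⟩
  · rintro ⟨a, rfl⟩
    refine ⟨star_stable a, fun T hT hle => ?_⟩
    obtain ⟨b, hb⟩ := stable_sub hT
    have : a = b := star_sub a b (le_trans hle hb)
    rw [this]
    exact hb

/-! ## Not weakly CIS -/

theorem two_edges : ∀ a : Fin 11, ∃ i j : Fin 22, i ≠ j ∧ ¬ graph.Adj i j ∧
    ∀ b, inc i b = true → inc j b = true → b = a := by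
  decide +kernel

theorem ends_card : ∀ i : Fin 22, (univ.filter (fun a => inc i a = true)).card = 2 := by
  decide +kernel

theorem adj_some : graph.Adj 0 2 := by decide +kernel

theorem not_weaklyCIS : ¬ WeaklyCIS graph := by
  rintro ⟨C, D, hC, hD, hcov, hncov, hcross⟩
  have hstar : ∀ a, star a ∈ D := by
    intro a
    obtain ⟨i, j, hij, hadj, huniq⟩ := two_edges a
    obtain ⟨S, hS, hi, hj⟩ := hncov i j hij hadj
    obtain ⟨b, rfl⟩ := (maxStable_iff S).1 (hD S hS)
    simp only [star, mem_filter, mem_univ, true_and] at hi hj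
    rw [← huniq b hi hj]
    exact hS
  obtain ⟨K, hK, _, _⟩ := hcov 0 2 adj_some
  have hcl := (hC K hK).1
  have h1 : ∀ a, (K.filter (fun i => inc i a = true)).card = 1 := by
    intro a
    obtain ⟨i, hi, hi'⟩ := hcross K hK (star a) (hstar a)
    simp only [star, mem_filter, mem_univ, true_and] at hi'
    rw [card_eq_one]
    refine ⟨i, ?_⟩
    ext j
    simp only [mem_filter, mem_singleton]
    constructor
    · rintro ⟨hj, hj'⟩
      by_contra hne
      exact not_adj_of_common i j a hi' hj' (hcl hi hj (Ne.symm hne))
    · rintro rfl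
      exact ⟨hi, hi'⟩
  have h2 : ∑ a : Fin 11, (K.filter (fun i => inc i a = true)).card = 2 * K.card := by
    simp only [card_filter]
    rw [sum_comm]
    have : ∀ i ∈ K, ∑ a : Fin 11, (if inc i a = true then 1 else 0) = 2 := by
      intro i _
      rw [← card_filter]
      exact ends_card i
    rw [sum_congr rfl this, sum_const, smul_eq_mul, mul_comm]
  simp only [h1, sum_const, card_univ, Fintype.card_fin, smul_eq_mul] at h2
  omega

/-! ## Weights -/

/-- the weights, multiplied by `16000` -/
def w (i : ℕ) : ℕ :=
  [4620, 4383, 4367, 4582, 4396, 4360, 4153, 4635, 4384, 4436, 4338,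
    3433, 3605, 3709, 3603, 3589, 3639, 3778, 3609, 3392, 3541, 3448].getD i 0

/-- the test at the end of the search: `t` chosen edges `l` of total weight `s` are no edge at all, or
form a star, or have average weight different from `4000` -/
def leaf (s t : ℕ) (l : List ℕ) : Bool :=
  (s != 4000 * t) || (t == 0) ||
    ((t == 4) && ((List.range 11).any fun a => l.all fun i => (p i == a) || (q i == a)))

/-- search through all sets of at most `c` edges with index below `k` -/
def go : ℕ → ℕ → ℕ → ℕ → List ℕ → Bool
  | 0, _, s, t, l => leaf s t l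
  | _ + 1, 0, s, t, l => leaf s t l
  | k + 1, c + 1, s, t, l => go k (c + 1) s t l && go k c (s + w k) (t + 1) (k :: l)

theorem leaf_sound {s t : ℕ} {l : List ℕ} (h : leaf s t l = true) (hs : s = 4000 * t) :
    t = 0 ∨ (t = 4 ∧ ∃ a < 11, ∀ i ∈ l, p i = a ∨ q i = a) := by
  unfold leaf at h
  rw [Bool.or_eq_true, Bool.or_eq_true] at h
  rcases h with (h | h) | h
  · simp [hs] at h
  · left; simpa using h
  · right
    rw [Bool.and_eq_true, List.any_eq_true] at h
    obtain ⟨h1, a, ha, h2⟩ := h
    refine ⟨by simpa using h1, a, by simpa using ha, fun i hi => ?_⟩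
    rw [List.all_eq_true] at h2
    simpa using h2 i hi

theorem go_sound : ∀ (k c s t : ℕ) (l : List ℕ), go k c s t l = true →
    ∀ S : Finset ℕ, S ⊆ range k → S.card ≤ c → s + ∑ i ∈ S, w i = 4000 * (t + S.card) →
      t + S.card = 0 ∨ (t + S.card = 4 ∧
        ∃ a < 11, (∀ i ∈ l, p i = a ∨ q i = a) ∧ ∀ i ∈ S, p i = a ∨ q i = a)
  | 0, c, s, t, l, h, S, hS, _, hsum => by
    have : S = ∅ := by simpa using hS
    subst this
    simp only [sum_empty, add_zero, card_empty] at hsum ⊢
    rcases leaf_sound h hsum with h | ⟨h1, a, ha, h2⟩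
    · exact Or.inl h
    · exact Or.inr ⟨h1, a, ha, h2, by simp⟩
  | k + 1, 0, s, t, l, h, S, _, hc, hsum => by
    have : S = ∅ := by simpa using hc
    subst this
    simp only [sum_empty, add_zero, card_empty] at hsum ⊢
    rcases leaf_sound h hsum with h | ⟨h1, a, ha, h2⟩
    · exact Or.inl h
    · exact Or.inr ⟨h1, a, ha, h2, by simp⟩
  | k + 1, c + 1, s, t, l, h, S, hS, hc, hsum => by
    unfold go at h
    rw [Bool.and_eq_true] at h
    by_cases hk : k ∈ S
    · have hcard : (S.erase k).card = S.card - 1 := card_erase_of_mem hk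
      have hpos : 0 < S.card := card_pos.2 ⟨k, hk⟩
      have hs : w k + ∑ i ∈ S.erase k, w i = ∑ i ∈ S, w i := add_sum_erase S w hk
      have := go_sound k c (s + w k) (t + 1) (k :: l) h.2 (S.erase k) (by
        intro x hx
        have hx' := hS (mem_of_mem_erase hx)
        have hne := ne_of_mem_erase hx
        rw [mem_range] at hx' ⊢
        omega) (by omega) (by
          rw [hcard]
          have : t + 1 + (S.card - 1) = t + S.card := by omega
          rw [this, ← hsum, ← hs]
          ring)
      have e : t + 1 + (S.erase k).card = t + S.card := by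
        rw [hcard]
        clear this hs hsum hcard h
        omega
      rw [e] at this
      rcases this with h | ⟨h1, a, ha, h2, h3⟩
      · exact Or.inl h
      · refine Or.inr ⟨h1, a, ha, fun i hi => h2 i (List.mem_cons_of_mem _ hi), fun i hi => ?_⟩
        by_cases hik : i = k
        · rw [hik]; exact h2 k List.mem_cons_self
        · exact h3 i (mem_erase.2 ⟨hik, hi⟩)
    · refine go_sound k (c + 1) s t l h.1 S ?_ hc hsum
      intro x hx
      have hx' := hS hx
      rw [mem_range] at hx' ⊢
      have : x ≠ k := fun e => hk (e ▸ hx)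
      omega

theorem search : go 22 4 0 0 [] = true := by decide +kernel

theorem star_card : ∀ a : Fin 11, (star a).card = 4 := by decide +kernel

theorem star_weight : ∀ a : Fin 11, ∑ i ∈ star a, w i = 16000 := by decide +kernel

theorem w_large : ∀ i : Fin 22, 3201 ≤ w i := by decide +kernel

theorem w_small : ∀ i : Fin 22, w i ≤ 4799 := by decide +kernel

theorem key (S : Finset (Fin 22)) (hc : S.card ≤ 4) (hs : ∑ i ∈ S, w i = 4000 * S.card) :
    S = ∅ ∨ ∃ a, S = star a := by
  have h := go_sound 22 4 0 0 [] search (S.map Fin.valEmbedding) (by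
    intro x hx
    obtain ⟨i, _, rfl⟩ := mem_map.1 hx
    exact mem_range.2 i.2) (by rw [card_map]; exact hc) (by
      rw [sum_map, card_map, zero_add, zero_add]
      exact hs)
  rw [card_map, zero_add] at h
  rcases h with h | ⟨h1, a, ha, _, h2⟩
  · left; exact card_eq_zero.1 h
  · right
    refine ⟨⟨a, ha⟩, ?_⟩
    apply eq_of_subset_of_card_le
    · intro i hi
      simp only [star, mem_filter, mem_univ, true_and, inc, Bool.or_eq_true, beq_iff_eq]
      exact h2 i (mem_map.2 ⟨i, hi, rfl⟩)
    · rw [star_card, h1]

/-- the generic weights -/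
noncomputable def phi (i : Fin 22) : ℝ := (w i : ℝ) / 16000

theorem sum_phi (S : Finset (Fin 22)) : ∑ i ∈ S, phi i = ((∑ i ∈ S, w i : ℕ) : ℝ) / 16000 := by
  unfold phi
  rw [← sum_div]
  push_cast
  rfl

theorem equistable : Equistable graph := by
  refine ⟨phi, fun v => by unfold phi; positivity, fun S => ?_⟩
  rw [maxStable_iff, sum_phi, div_eq_one_iff_eq (by norm_num)]
  constructor
  · rintro ⟨a, rfl⟩
    rw [star_weight]
    norm_num
  · intro h
    have h' : ∑ i ∈ S, w i = 16000 := by exact_mod_cast h
    have hlow : S.card * 3201 ≤ ∑ i ∈ S, w i := by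
      rw [← smul_eq_mul]
      exact card_nsmul_le_sum S _ _ (fun i _ => w_large i)
    have hup : ∑ i ∈ S, w i ≤ S.card * 4799 := by
      rw [← smul_eq_mul]
      exact sum_le_card_nsmul S _ _ (fun i _ => w_small i)
    have hcard : S.card = 4 := by omega
    rcases key S hcard.le (by rw [hcard, h']) with h | h
    · rw [h] at hcard
      simp at hcard
    · exact h

theorem stronglyEquistable : StronglyEquistable graph := by
  intro T hT hmax γ hγ
  rw [maxStable_iff] at hmax
  have hconst : ∀ S : Finset (Fin 22), ∑ i ∈ S, (1 / 4 : ℝ) = (S.card : ℝ) / 4 := by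
    intro S
    rw [sum_const, nsmul_eq_mul]
    ring
  have hA : ∀ S : Finset (Fin 22), MaxStable graph S → ∑ i ∈ S, (1 / 4 : ℝ) = 1 := by
    intro S hS
    obtain ⟨a, rfl⟩ := (maxStable_iff S).1 hS
    rw [hconst, star_card]
    norm_num
  have hB : ∀ S : Finset (Fin 22), MaxStable graph S → ∑ i ∈ S, phi i = 1 := by
    intro S hS
    obtain ⟨a, rfl⟩ := (maxStable_iff S).1 hS
    rw [sum_phi, star_weight]
    norm_num
  by_cases h1 : ∑ i ∈ T, (1 / 4 : ℝ) = γ
  · refine ⟨phi, fun v => ?_, hB, fun h2 => ?_⟩
    · unfold phi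
      have := w_large v
      have : (0 : ℝ) < w v := by
        have : 0 < w v := by omega
        exact_mod_cast this
      positivity
    · rw [hconst] at h1
      have hc : T.card ≤ 4 := by
        have : (T.card : ℝ) ≤ 4 := by linarith
        exact_mod_cast this
      rw [sum_phi, ← h1] at h2
      have h3 : ((∑ i ∈ T, w i : ℕ) : ℝ) = ((4000 * T.card : ℕ) : ℝ) := by
        push_cast at h2 ⊢
        linarith
      rcases key T hc (by exact_mod_cast h3) with h | h
      · exact hT.ne_empty h
      · exact hmax h
  · exact ⟨fun _ => 1 / 4, fun _ => by norm_num, hA, h1⟩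

/-- There is a finite graph that is equistable, even strongly equistable, but not weakly CIS. -/
theorem result : ∃ G : SimpleGraph (Fin 22),
    Equistable G ∧ StronglyEquistable G ∧ ¬ WeaklyCIS G :=
  ⟨graph, equistable, stronglyEquistable, not_weaklyCIS⟩

end Pool.Agent.Results.MP_59918e_co.StronglyEquistableNotWeaklyCIS
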